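import Pool.Agent.Results.MP_c4712b_ag.ManyNodesFamily

set_option autoImplicit false

namespace Pool.Agent.Y166.CS

open Polynomial
open Pool.Agent.Results.MP_c4712b_ag.ManyNodesFamily (Poly3 surf CoordRing IsSingularPt spt
  IsIsolatedSingularPt IsQuasihomogeneous)

/-- `f` has two different roots or a multiple root (`f ≠ 0`, not constant, not of degree one) -/
def Big (f : ℂ[X]) : Prop :=
  f ≠ 0 ∧ ∃ c : ℂ, f.eval c = 0 ∧ (f.derivative.eval c = 0 ∨ ∃ c' : ℂ, c' ≠ c ∧ f.eval c' = 0)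

/-- the Jacobian ideal `(p, ∂_0 p, ∂_1 p, ∂_2 p)` -/
noncomputable def Jac (p : Poly3) : Ideal Poly3 :=
  Ideal.span (insert p (Set.range fun i : Fin 3 => MvPolynomial.pderiv i p))

/-- CS-CURVE2: polynomial curves on the surface which avoid the singular points. -/
def S_CURVE2 : Prop :=
  ∀ (f : ℂ[X]), Big f → ∀ k : ℕ, 2 ≤ k → ∀ x y z : ℂ[X],
    f.comp x * z = y ^ k →
    (∀ t : ℂ, ¬ (f.eval (x.eval t) = 0 ∧ y.eval t = 0 ∧
      f.derivative.eval (x.eval t) * z.eval t = 0)) →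
    ∃ e : ℂ, x = C e

/-- CS-JAC: isomorphisms of hypersurfaces transport Jacobian ideals. -/
def S_JAC : Prop :=
  ∀ (p q : Poly3) (F G : Fin 3 → Poly3),
    (∃ h, MvPolynomial.aeval F q = h * p) →
    (∀ i, ∃ h, MvPolynomial.aeval F (G i) = MvPolynomial.X i + h * p) →
    ∀ r ∈ Jac q, MvPolynomial.aeval F r ∈ Jac p

/-- CS-MULT: the multiplicity of a root is visible in the Jacobian ideal. -/
def S_MULT : Prop :=
  ∀ (f : ℂ[X]), f ≠ 0 → ∀ k : ℕ, 2 ≤ k → ∀ c : ℂ, f.eval c = 0 →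
    (∀ (h : Poly3) (j : ℕ) (z : ℂ), h * (MvPolynomial.X 0 - MvPolynomial.C c) ^ j ∈ Jac (surf f k) →
      MvPolynomial.eval ![c, 0, z] h ≠ 0 → f.rootMultiplicity c ≤ j + 1) ∧
    (∃ h : Poly3, h * (MvPolynomial.X 0 - MvPolynomial.C c) ^ (f.rootMultiplicity c - 1) ∈
      Jac (surf f k) ∧ ∀ z : ℂ, z ≠ 0 → MvPolynomial.eval ![c, 0, z] h ≠ 0)

/-- CS-NIL: the nilpotency index of the fibre over a root is `k`. -/
def S_NIL : Prop :=
  ∀ (f : ℂ[X]) (k : ℕ), 1 ≤ k → ∀ c : ℂ, f.eval c = 0 →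
    (∀ (h : Poly3) (N : ℕ), h ^ N ∈ Ideal.span {MvPolynomial.X 0 - MvPolynomial.C c, surf f k} →
      h ^ k ∈ Ideal.span {MvPolynomial.X 0 - MvPolynomial.C c, surf f k}) ∧
    MvPolynomial.X 1 ^ k ∈ Ideal.span {MvPolynomial.X 0 - MvPolynomial.C c, surf f k} ∧
    ∀ N : ℕ, MvPolynomial.X 1 ^ N ∈ Ideal.span {MvPolynomial.X 0 - MvPolynomial.C c, surf f k} →
      k ≤ N

/-- CS-DVD2: comparison of two polynomials by mutually inverse substitutions. -/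
def S_DVD2 : Prop :=
  ∀ (f g α β : ℂ[X]), f ≠ 0 → g ≠ 0 → β.comp α = X →
    (∀ c, f.eval c = 0 → g.eval (α.eval c) = 0) → (∀ c, g.eval c = 0 → f.eval (β.eval c) = 0) →
    (∃ a b : ℂ, a ≠ 0 ∧ α = C a * X + C b) ∧
      ((∀ c, f.eval c = 0 → f.rootMultiplicity c = g.rootMultiplicity (α.eval c)) →
        ∃ a b c : ℂ, a ≠ 0 ∧ c ≠ 0 ∧ g = C c * f.comp (C a * X + C b))

/-- CS-LIN: degree one, the exponent is determined by the Jacobian ideal. -/
def S_LIN : Prop :=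
  ∀ (f g : ℂ[X]), f.natDegree = 1 → g.natDegree = 1 → ∀ k l : ℕ, 2 ≤ k → 2 ≤ l →
    ∀ F G : Fin 3 → Poly3, (∃ h, MvPolynomial.aeval F (surf g l) = h * surf f k) →
    (∃ h, MvPolynomial.aeval G (surf f k) = h * surf g l) →
    (∀ i, ∃ h, MvPolynomial.aeval F (G i) = MvPolynomial.X i + h * surf f k) →
    (∀ i, ∃ h, MvPolynomial.aeval G (F i) = MvPolynomial.X i + h * surf g l) → k ≤ l

end Pool.Agent.Y166.CS
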