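import Mathlib

set_option autoImplicit false

namespace Pool.Agent.Y166.CS

open Polynomial

/-- CS-KPOW: if all root multiplicities of `x - c` and of `x - c'` (`c ≠ c'`) are divisible by
`k ≥ 2`, then the polynomial `x` is constant. -/
def S_KPOW : Prop :=
  ∀ (k : ℕ), 2 ≤ k → ∀ (x : ℂ[X]) (c c' : ℂ), c ≠ c' →
    (∀ t : ℂ, k ∣ (x - C c).rootMultiplicity t) →
    (∀ t : ℂ, k ∣ (x - C c').rootMultiplicity t) → ∃ e : ℂ, x = C e

/-- CS-CURVE: a polynomial curve on the surface `f(x) z = y ^ k` (`f` squarefree of degree at least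
two) which avoids the points with `f(x) = y = z = 0` lies in a fibre of `x`. -/
def S_CURVE : Prop :=
  ∀ (f : ℂ[X]), Squarefree f → 2 ≤ f.natDegree → ∀ k : ℕ, 2 ≤ k → ∀ x y z : ℂ[X],
    f.comp x * z = y ^ k →
    (∀ t : ℂ, ¬ (f.eval (x.eval t) = 0 ∧ y.eval t = 0 ∧ z.eval t = 0)) →
    ∃ e : ℂ, x = C e

/-- CS-ORD: comparison of orders of vanishing at `t = 0`. -/
def S_ORD : Prop :=
  ∀ (f : ℂ[X]), Squarefree f → ∀ (k l : ℕ), 1 ≤ k → 1 ≤ l → ∀ (c : ℂ), f.eval c = 0 →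
    ∀ (A B Y Z : ℂ[X]), A = C c + X ^ l * B → B.eval 0 ≠ 0 →
    (X ^ (l + 1) ∣ f.comp A * Z - Y ^ k) → ¬ (Y.eval 0 = 0 ∧ Z.eval 0 = 0) → k ∣ l

/-- CS-DVD: comparison of two squarefree polynomials by mutually inverse substitutions. -/
def S_DVD : Prop :=
  ∀ (f g α β : ℂ[X]), Squarefree f → Squarefree g → β.comp α = X →
    (∀ c, f.eval c = 0 → g.eval (α.eval c) = 0) → (∀ c, g.eval c = 0 → f.eval (β.eval c) = 0) →
    (∃ a b : ℂ, a ≠ 0 ∧ α = C a * X + C b) ∧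
      ∃ a b c : ℂ, a ≠ 0 ∧ c ≠ 0 ∧ g = C c * f.comp (C a * X + C b)

/-- CS-IF: the affine change of coordinates. -/
def S_IF : Prop :=
  ∀ (f : ℂ[X]) (k : ℕ) (a b c : ℂ), a ≠ 0 → c ≠ 0 →
    ∃ Φ : MvPolynomial (Fin 3) ℂ ≃ₐ[ℂ] MvPolynomial (Fin 3) ℂ,
      Φ (aeval (MvPolynomial.X 0 : MvPolynomial (Fin 3) ℂ) f * MvPolynomial.X 2
          - MvPolynomial.X 1 ^ k) =
        aeval (MvPolynomial.X 0 : MvPolynomial (Fin 3) ℂ) (C c * f.comp (C a * X + C b)) *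
          MvPolynomial.X 2 - MvPolynomial.X 1 ^ k

end Pool.Agent.Y166.CS
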