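import Pool.Agent.Y166.CS.Stm
import Pool.Agent.Results.MP_c4712b_ag.ManyNodesFamily

set_option autoImplicit false

namespace Pool.Agent.Y166.CS

open Polynomial
open Pool.Agent.Results.MP_c4712b_ag.ManyNodesFamily (Poly3 surf CoordRing IsSingularPt iso_data
  sing_push pt_back eval_surf sing_surf irreducible_surf spt spt_inj eval_aeval_X0)

noncomputable section

/-- substitution of a polynomial curve -/
def sub (v : Fin 3 → ℂ[X]) (g : Poly3) : ℂ[X] := MvPolynomial.aeval v g

lemma sub_mul (v : Fin 3 → ℂ[X]) (g h : Poly3) : sub v (g * h) = sub v g * sub v h := by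
  simp [sub]

lemma sub_add (v : Fin 3 → ℂ[X]) (g h : Poly3) : sub v (g + h) = sub v g + sub v h := by
  simp [sub]

lemma sub_aevalX0 (v : Fin 3 → ℂ[X]) (f : ℂ[X]) :
    sub v (Polynomial.aeval (MvPolynomial.X 0 : Poly3) f) = f.comp (v 0) := by
  rw [sub, ← Polynomial.aeval_algHom_apply, MvPolynomial.aeval_X, Polynomial.comp_eq_aeval]

lemma sub_surf (v : Fin 3 → ℂ[X]) (f : ℂ[X]) (k : ℕ) :
    sub v (surf f k) = f.comp (v 0) * v 2 - v 1 ^ k := by
  have h := sub_aevalX0 v f
  simp only [sub] at h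
  simp only [sub, surf, map_sub, map_mul, map_pow, MvPolynomial.aeval_X, h]

lemma eval_sub' (v : Fin 3 → ℂ[X]) (g : Poly3) (t : ℂ) :
    (sub v g).eval t = MvPolynomial.eval (fun i => (v i).eval t) g := by
  induction g using MvPolynomial.induction_on with
  | C a => simp [sub]
  | add p q hp hq =>
    rw [sub_add, Polynomial.eval_add, hp, hq, map_add]
  | mul_X p i hp =>
    rw [sub_mul, Polynomial.eval_mul, hp, map_mul]
    simp [sub]

lemma sub_aeval (v : Fin 3 → ℂ[X]) (F : Fin 3 → Poly3) (g : Poly3) :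
    sub v (MvPolynomial.aeval F g) = sub (fun i => sub v (F i)) g := by
  induction g using MvPolynomial.induction_on with
  | C a => simp [sub]
  | add p q hp hq => rw [map_add, sub_add, sub_add, hp, hq]
  | mul_X p i hp =>
    rw [map_mul, sub_mul, sub_mul, hp, MvPolynomial.aeval_X]
    simp [sub]

/-- the data of an isomorphism of two of the surfaces -/
structure Dat (f g : ℂ[X]) (k l : ℕ) (F G : Fin 3 → Poly3) : Prop where
  hf : Squarefree f
  hg : Squarefree g
  df : 2 ≤ f.natDegree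
  dg : 2 ≤ g.natDegree
  hk : 2 ≤ k
  hl : 2 ≤ l
  F1 : ∃ h, MvPolynomial.aeval F (surf g l) = h * surf f k
  G1 : ∃ h, MvPolynomial.aeval G (surf f k) = h * surf g l
  GF : ∀ i, ∃ h, MvPolynomial.aeval F (G i) = MvPolynomial.X i + h * surf f k
  FG : ∀ i, ∃ h, MvPolynomial.aeval G (F i) = MvPolynomial.X i + h * surf g l

lemma Dat.symm {f g : ℂ[X]} {k l : ℕ} {F G : Fin 3 → Poly3} (D : Dat f g k l F G) :
    Dat g f l k G F where
  hf := D.hg
  hg := D.hf
  df := D.dg
  dg := D.df
  hk := D.hl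
  hl := D.hk
  F1 := D.G1
  G1 := D.F1
  GF := D.FG
  FG := D.GF

/-- the polynomial describing the map of the bases -/
def base (F : Fin 3 → Poly3) : ℂ[X] := sub ![X, 0, 0] (F 0)

lemma base_eval (F : Fin 3 → Poly3) (c : ℂ) :
    (base F).eval c = MvPolynomial.eval (spt c) (F 0) := by
  rw [base, eval_sub']
  congr 2
  funext i
  fin_cases i <;> simp [spt]

section

variable {f g : ℂ[X]} {k l : ℕ} {F G : Fin 3 → Poly3}

lemma mem_push (D : Dat f g k l F G) (a : Fin 3 → ℂ) (ha : MvPolynomial.eval a (surf f k) = 0) :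
    MvPolynomial.eval (fun i => MvPolynomial.eval a (F i)) (surf g l) = 0 := by
  obtain ⟨h, hh⟩ := D.F1
  rw [← Pool.Agent.Results.MP_c4712b_ag.ManyNodesFamily.eval_aeval, hh, map_mul, ha, mul_zero]

lemma nonsing (D : Dat f g k l F G) (a : Fin 3 → ℂ) (ha : MvPolynomial.eval a (surf f k) = 0)
    (hs : IsSingularPt (surf g l) (fun i => MvPolynomial.eval a (F i))) :
    IsSingularPt (surf f k) a := by
  have h := sing_push D.G1 D.FG _ hs
  rw [pt_back D.GF a ha] at h
  exact h

/-- the first coordinate of the map is constant on the general fibres -/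
lemma fibre (hC : S_CURVE) (D : Dat f g k l F G) (a : Fin 3 → ℂ)
    (ha : MvPolynomial.eval a (surf f k) = 0) (hfa : f.eval (a 0) ≠ 0) :
    MvPolynomial.eval a (F 0) = (base F).eval (a 0) := by
  set c := a 0 with hc
  have hk0 : k ≠ 0 := by have := D.hk; omega
  set v : Fin 3 → ℂ[X] := ![C c, X, C (f.eval c)⁻¹ * X ^ k] with hv
  have hv0 : sub v (surf f k) = 0 := by
    rw [sub_surf]
    simp only [hv, Matrix.cons_val_zero, Matrix.cons_val_one, Matrix.cons_val, comp_C]
    rw [← mul_assoc, ← C_mul, mul_inv_cancel₀ hfa, C_1, one_mul, sub_self]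
  have hpt : ∀ t : ℂ, (fun i => (v i).eval t) = ![c, t, (f.eval c)⁻¹ * t ^ k] := by
    intro t
    funext i
    fin_cases i <;> simp [hv]
  have hmem : ∀ t : ℂ, MvPolynomial.eval ![c, t, (f.eval c)⁻¹ * t ^ k] (surf f k) = 0 := by
    intro t
    have h := congrArg (Polynomial.eval t) hv0
    rwa [eval_sub', hpt, Polynomial.eval_zero] at h
  obtain ⟨h, hh⟩ := D.F1
  have h1 : g.comp (sub v (F 0)) * sub v (F 2) = sub v (F 1) ^ l := by
    have h2 := congrArg (sub v) hh
    rw [sub_aeval, sub_surf, sub_mul, hv0, mul_zero] at h2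
    exact sub_eq_zero.mp h2
  have hns : ∀ t : ℂ, ¬ (g.eval ((sub v (F 0)).eval t) = 0 ∧ (sub v (F 1)).eval t = 0 ∧
      (sub v (F 2)).eval t = 0) := by
    intro t ht
    rw [eval_sub', eval_sub', eval_sub', hpt] at ht
    have hs : IsSingularPt (surf g l)
        (fun i => MvPolynomial.eval ![c, t, (f.eval c)⁻¹ * t ^ k] (F i)) := by
      rw [sing_surf D.hg D.hl]
      exact ht
    have h3 := nonsing D _ (hmem t) hs
    rw [sing_surf D.hf D.hk] at h3
    exact hfa h3.1
  obtain ⟨e, he⟩ := hC g D.hg D.dg l D.hl _ _ _ h1 hns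
  have e1 := congrArg (Polynomial.eval (a 1)) he
  have e0 := congrArg (Polynomial.eval 0) he
  rw [eval_sub', hpt, eval_C] at e1 e0
  have ha' : ![c, a 1, (f.eval c)⁻¹ * a 1 ^ k] = a := by
    rw [eval_surf] at ha
    have h4 : a 1 ^ k = f.eval c * a 2 := by rw [hc]; linear_combination -ha
    funext i
    fin_cases i
    · simp [hc]
    · simp
    · simp only [Fin.reduceFinMk, Matrix.cons_val]
      rw [h4, ← mul_assoc, inv_mul_cancel₀ hfa, one_mul]
  have h0' : ![c, 0, (f.eval c)⁻¹ * 0 ^ k] = spt c := by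
    funext i
    fin_cases i <;> simp [spt, hk0]
  rw [ha'] at e1
  rw [h0'] at e0
  rw [e1, base_eval, e0]

lemma spt_mem (D : Dat f g k l F G) (c : ℂ) : MvPolynomial.eval (spt c) (surf f k) = 0 := by
  have hk0 : k ≠ 0 := by have := D.hk; omega
  rw [eval_surf]
  simp [spt, hk0]

lemma sing_spt (D : Dat f g k l F G) (c : ℂ) (hc : f.eval c = 0) :
    IsSingularPt (surf f k) (spt c) := by
  rw [sing_surf D.hf D.hk]
  simp [spt, hc]

lemma push_spt (D : Dat f g k l F G) (c : ℂ) (hc : f.eval c = 0) :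
    g.eval ((base F).eval c) = 0 ∧
      (fun i => MvPolynomial.eval (spt c) (F i)) = spt ((base F).eval c) := by
  have h := sing_push D.F1 D.GF _ (sing_spt D c hc)
  rw [sing_surf D.hg D.hl] at h
  rw [base_eval]
  refine ⟨h.1, ?_⟩
  funext i
  fin_cases i
  · simp [spt]
  · simpa [spt] using h.2.1
  · simpa [spt] using h.2.2

lemma two_roots {f : ℂ[X]} (hf : Squarefree f) (df : 2 ≤ f.natDegree) :
    ∃ c c' : ℂ, c ≠ c' ∧ f.eval c = 0 ∧ f.eval c' = 0 := by
  have h := Pool.Agent.Results.MP_c4712b_ag.ManyNodesFamily.card_roots hf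
  have h1 : 1 < f.roots.toFinset.card := by omega
  obtain ⟨c, hc, c', hc', hne⟩ := Finset.one_lt_card.mp h1
  rw [Multiset.mem_toFinset, Polynomial.mem_roots hf.ne_zero] at hc hc'
  exact ⟨c, c', hne, hc, hc'⟩

lemma comp_ne (D : Dat f g k l F G) : g.comp (base F) ≠ 0 := by
  obtain ⟨c, c', hne, hc, hc'⟩ := two_roots D.hf D.df
  intro h
  rw [Polynomial.comp_eq_zero_iff] at h
  rcases h with h | ⟨-, h⟩
  · exact D.hg.ne_zero h
  · have e1 : (base F).eval c = (base F).eval c' := by rw [h]; simp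
    have p1 := (push_spt D c hc).2
    have p2 := (push_spt D c' hc').2
    rw [e1] at p1
    have q1 := pt_back D.GF _ (spt_mem D c)
    have q2 := pt_back D.GF _ (spt_mem D c')
    rw [p1] at q1
    rw [p2] at q2
    exact hne (spt_inj (q1.symm.trans q2))

lemma base_comp (hC : S_CURVE) (D : Dat f g k l F G) : (base G).comp (base F) = X := by
  have key : ((base G).comp (base F) - X) * (f * g.comp (base F)) = 0 := by
    apply Polynomial.funext
    intro c
    rw [Polynomial.eval_mul, Polynomial.eval_mul, Polynomial.eval_sub, Polynomial.eval_comp,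
      Polynomial.eval_X, Polynomial.eval_comp, Polynomial.eval_zero]
    by_cases h1 : f.eval c = 0
    · rw [h1]; ring
    by_cases h2 : g.eval ((base F).eval c) = 0
    · rw [h2]; ring
    have h3 : (base F).eval c = MvPolynomial.eval (spt c) (F 0) := base_eval F c
    have h4 := fibre hC D.symm (fun i => MvPolynomial.eval (spt c) (F i))
      (mem_push D _ (spt_mem D c)) (by rw [h3] at h2; exact h2)
    rw [← h3] at h4
    rw [← h4]
    have h5 := congrFun (pt_back D.GF _ (spt_mem D c)) 0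
    rw [h5]
    simp [spt]
  rcases mul_eq_zero.mp key with h | h
  · exact sub_eq_zero.mp h
  · rcases mul_eq_zero.mp h with h | h
    · exact absurd h D.hf.ne_zero
    · exact absurd h (comp_ne D)

/-- the first coordinate of the map is the polynomial `base F` of `x_0` modulo the equation -/
lemma base_mem (hC : S_CURVE) (D : Dat f g k l F G) :
    ∃ r, F 0 = Polynomial.aeval (MvPolynomial.X 0 : Poly3) (base F) + r * surf f k := by
  have hirr := irreducible_surf D.hf.ne_zero k
  have hprime : Prime (surf f k) := hirr.prime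
  set d : Poly3 := (F 0 - Polynomial.aeval (MvPolynomial.X 0 : Poly3) (base F)) *
    Polynomial.aeval (MvPolynomial.X 0 : Poly3) f with hd
  have h1 : d ∈ MvPolynomial.vanishingIdeal ℂ
      (MvPolynomial.zeroLocus ℂ (Ideal.span {surf f k})) := by
    rw [MvPolynomial.mem_vanishingIdeal_iff]
    intro a ha
    rw [MvPolynomial.mem_zeroLocus_iff] at ha
    have ha0 := ha _ (Ideal.mem_span_singleton_self _)
    rw [MvPolynomial.aeval_eq_eval] at ha0
    rw [MvPolynomial.aeval_eq_eval, hd]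
    simp only [map_mul, map_sub, eval_aeval_X0] at ha0 ⊢
    by_cases h2 : f.eval (a 0) = 0
    · rw [h2, mul_zero]
    · rw [fibre hC D a (by simpa using ha0) h2, sub_self, zero_mul]
  rw [MvPolynomial.vanishingIdeal_zeroLocus_eq_radical,
    Ideal.IsPrime.radical ((Ideal.span_singleton_prime hprime.ne_zero).mpr hprime),
    Ideal.mem_span_singleton] at h1
  rcases hprime.dvd_or_dvd h1 with ⟨r, hr⟩ | ⟨r, hr⟩
  · exact ⟨r, by linear_combination hr⟩
  · exfalso
    apply D.hf.ne_zero
    apply Polynomial.funext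
    intro c
    have := congrArg (MvPolynomial.eval (spt c)) hr
    rw [eval_aeval_X0, map_mul, spt_mem D c, zero_mul] at this
    simpa [spt] using this

/-- the exponents divide each other -/
lemma expo (hC : S_CURVE) (hO : S_ORD) (hD : S_DVD) (D : Dat f g k l F G) : l ∣ k := by
  have hk0 : k ≠ 0 := by have := D.hk; omega
  obtain ⟨c, -, -, hc, -⟩ := two_roots D.hf D.df
  obtain ⟨f1, hf1⟩ := Polynomial.dvd_iff_isRoot.mpr hc
  have hf1c : f1.eval c ≠ 0 := by
    intro h0
    obtain ⟨f2, hf2⟩ := Polynomial.dvd_iff_isRoot.mpr h0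
    have hsq : (X - C c) * (X - C c) ∣ f := ⟨f2, by rw [hf1, hf2]; ring⟩
    exact Polynomial.not_isUnit_X_sub_C c (D.hf _ hsq)
  set v : Fin 3 → ℂ[X] := ![C c + X ^ k, X, C (f1.eval c)⁻¹] with hv
  -- the curve lies on the surface up to order `k + 1`
  obtain ⟨s, hs⟩ : X ^ (k + 1) ∣ sub v (surf f k) := by
    have h1 : sub v (surf f k) = X ^ k * (f1.comp (C c + X ^ k) * C (f1.eval c)⁻¹ - 1) := by
      rw [sub_surf]
      simp only [hv, Matrix.cons_val_zero, Matrix.cons_val_one, Matrix.cons_val]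
      conv_lhs => rw [hf1]
      rw [mul_comp, sub_comp, X_comp, C_comp]
      ring
    have h2 : X ∣ f1.comp (C c + X ^ k) * C (f1.eval c)⁻¹ - 1 := by
      rw [Polynomial.X_dvd_iff, Polynomial.coeff_zero_eq_eval_zero]
      simp [hk0, hf1c]
    obtain ⟨w, hw⟩ := h2
    exact ⟨w, by rw [h1, hw, pow_succ]; ring⟩
  obtain ⟨r, hr⟩ := base_mem hC D
  obtain ⟨a, b, ha, hab⟩ := (hD f g (base F) (base G) D.hf D.hg (base_comp hC D)
    (fun c hc => (push_spt D c hc).1) (fun c hc => (push_spt D.symm c hc).1)).1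
  have hA : sub v (F 0) = C (a * c + b) + X ^ k * (C a + X * (sub v r * s)) := by
    rw [hr, sub_add, sub_mul, sub_aevalX0, hs, hab]
    simp only [hv, Matrix.cons_val_zero, add_comp, mul_comp, C_comp, X_comp, C_add, C_mul]
    ring
  obtain ⟨h, hh⟩ := D.F1
  have hdiv : X ^ (k + 1) ∣ g.comp (sub v (F 0)) * sub v (F 2) - sub v (F 1) ^ l := by
    have h2 := congrArg (sub v) hh
    rw [sub_aeval, sub_surf, sub_mul, hs] at h2
    exact ⟨sub v h * s, by rw [h2]; ring⟩
  have hpt : (fun i => (v i).eval 0) = ![c, 0, (f1.eval c)⁻¹] := by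
    funext i
    fin_cases i <;> simp [hv, hk0]
  have hroot : g.eval (a * c + b) = 0 := by
    have := (push_spt D c hc).1
    rw [hab] at this
    simpa using this
  refine hO g D.hg l k (by have := D.hl; omega) (by omega) (a * c + b) hroot _ _ _ _ hA
    (by simpa using ha) hdiv ?_
  rintro ⟨hY, hZ⟩
  have hX : (sub v (F 0)).eval 0 = a * c + b := by rw [hA]; simp [hk0]
  rw [eval_sub', hpt] at hX hY hZ
  have hmem : MvPolynomial.eval ![c, 0, (f1.eval c)⁻¹] (surf f k) = 0 := by
    rw [eval_surf]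
    have hc' : f.eval c = 0 := hc
    simp [hc', hk0]
  have hsing : IsSingularPt (surf g l)
      (fun i => MvPolynomial.eval ![c, 0, (f1.eval c)⁻¹] (F i)) := by
    rw [sing_surf D.hg D.hl]
    exact ⟨by rw [hX]; exact hroot, hY, hZ⟩
  have h3 := nonsing D _ hmem hsing
  rw [sing_surf D.hf D.hk] at h3
  have h4 := h3.2.2
  simp only [Matrix.cons_val] at h4
  exact hf1c (inv_eq_zero.mp h4)

end

/-- isomorphic surfaces have the same exponent and equivalent polynomials -/
theorem only_if (hC : S_CURVE) (hO : S_ORD) (hD : S_DVD) (f g : ℂ[X]) (k l : ℕ)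
    (hf : Squarefree f) (hg : Squarefree g) (df : 2 ≤ f.natDegree) (dg : 2 ≤ g.natDegree)
    (hk : 2 ≤ k) (hl : 2 ≤ l) (Ψ : CoordRing (surf f k) ≃ₐ[ℂ] CoordRing (surf g l)) :
    k = l ∧ ∃ a b c : ℂ, a ≠ 0 ∧ c ≠ 0 ∧ g = C c * f.comp (C a * X + C b) := by
  obtain ⟨F, G, hF, hG, hGF, hFG⟩ := iso_data Ψ
  have D : Dat f g k l F G := ⟨hf, hg, df, dg, hk, hl, hF, hG, hGF, hFG⟩
  refine ⟨Nat.dvd_antisymm (expo hC hO hD D.symm) (expo hC hO hD D), ?_⟩
  exact (hD f g (base F) (base G) D.hf D.hg (base_comp hC D)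
    (fun c hc => (push_spt D c hc).1) (fun c hc => (push_spt D.symm c hc).1)).2

end

end Pool.Agent.Y166.CS
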