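import Pool.Agent.Results.MP_c4712b_ag.ManyNodesFamily

set_option autoImplicit false

namespace Pool.Agent.Y166.CS

open Polynomial
open Pool.Agent.Results.MP_c4712b_ag.ManyNodesFamily (Poly3 surf CoordRing IsSingularPt spt
  IsIsolatedSingularPt IsQuasihomogeneous)

/-- CS-SING: the singular points of the surface for an arbitrary polynomial `f`. -/
def S_SING : Prop :=
  ∀ (f : ℂ[X]) (k : ℕ), 2 ≤ k → ∀ a : Fin 3 → ℂ,
    (IsSingularPt (surf f k) a ↔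
      f.eval (a 0) = 0 ∧ a 1 = 0 ∧ f.derivative.eval (a 0) * a 2 = 0)

/-- CS-ISOL: the isolated singular points are the points over the simple roots. -/
def S_ISOL : Prop :=
  ∀ (f : ℂ[X]), f ≠ 0 → ∀ (k : ℕ), 2 ≤ k → ∀ a : Fin 3 → ℂ,
    (IsIsolatedSingularPt (surf f k) a ↔
      ∃ c : ℂ, f.eval c = 0 ∧ f.derivative.eval c ≠ 0 ∧ a = spt c)

/-- CS-CONN: with two different roots the surface is not isomorphic to a quasihomogeneous one. -/
def S_CONN : Prop :=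
  ∀ (f : ℂ[X]), f ≠ 0 → ∀ (k : ℕ), 2 ≤ k → ∀ c c' : ℂ, c ≠ c' → f.eval c = 0 → f.eval c' = 0 →
    ∀ q : Poly3, IsQuasihomogeneous q → IsEmpty (CoordRing (surf f k) ≃ₐ[ℂ] CoordRing q)

/-- CS-ONE: with one root the surface is quasihomogeneous after a translation. -/
def S_ONE : Prop :=
  ∀ (a c : ℂ) (m k : ℕ), c ≠ 0 → 2 ≤ k →
    ∃ Φ : Poly3 ≃ₐ[ℂ] Poly3, IsQuasihomogeneous (Φ (surf (C c * (X - C a) ^ m) k))

/-- CS-UNC: uncountably many classes of squarefree polynomials of degree `s ≥ 3` modulo affine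
substitutions and scalars. -/
def S_UNC : Prop :=
  ∀ s : ℕ, 3 ≤ s → ∃ S : Set ℂ[X], ¬ S.Countable ∧
    (∀ f ∈ S, Squarefree f ∧ f.natDegree = s) ∧
    ∀ f ∈ S, ∀ g ∈ S,
      (∃ a b c : ℂ, a ≠ 0 ∧ c ≠ 0 ∧ g = C c * f.comp (C a * X + C b)) → f = g

end Pool.Agent.Y166.CS
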