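import Pool.Agent.Y166.CS.Geo
import Pool.Agent.Y166.CS.Stm2
import Pool.Agent.Y166.CS.Stm3

set_option autoImplicit false

namespace Pool.Agent.Y166.CS

open Polynomial
open Pool.Agent.Results.MP_c4712b_ag.ManyNodesFamily (Poly3 surf CoordRing IsSingularPt iso_data
  sing_push pt_back eval_surf irreducible_surf spt spt_inj eval_aeval_X0)

noncomputable section

/-- the data of an isomorphism of two of the surfaces -/
structure Dat2 (f g : ℂ[X]) (k l : ℕ) (F G : Fin 3 → Poly3) : Prop where
  hf : f ≠ 0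
  hg : g ≠ 0
  hk : 2 ≤ k
  hl : 2 ≤ l
  F1 : ∃ h, MvPolynomial.aeval F (surf g l) = h * surf f k
  G1 : ∃ h, MvPolynomial.aeval G (surf f k) = h * surf g l
  GF : ∀ i, ∃ h, MvPolynomial.aeval F (G i) = MvPolynomial.X i + h * surf f k
  FG : ∀ i, ∃ h, MvPolynomial.aeval G (F i) = MvPolynomial.X i + h * surf g l

lemma Dat2.symm {f g : ℂ[X]} {k l : ℕ} {F G : Fin 3 → Poly3} (D : Dat2 f g k l F G) :
    Dat2 g f l k G F where
  hf := D.hg
  hg := D.hf
  hk := D.hl
  hl := D.hk
  F1 := D.G1
  G1 := D.F1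
  GF := D.FG
  FG := D.GF

section

variable {f g : ℂ[X]} {k l : ℕ} {F G : Fin 3 → Poly3}

lemma mem_push2 (D : Dat2 f g k l F G) (a : Fin 3 → ℂ) (ha : MvPolynomial.eval a (surf f k) = 0) :
    MvPolynomial.eval (fun i => MvPolynomial.eval a (F i)) (surf g l) = 0 := by
  obtain ⟨h, hh⟩ := D.F1
  rw [← Pool.Agent.Results.MP_c4712b_ag.ManyNodesFamily.eval_aeval, hh, map_mul, ha, mul_zero]

lemma nonsing2 (D : Dat2 f g k l F G) (a : Fin 3 → ℂ) (ha : MvPolynomial.eval a (surf f k) = 0)
    (hs : IsSingularPt (surf g l) (fun i => MvPolynomial.eval a (F i))) :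
    IsSingularPt (surf f k) a := by
  have h := sing_push D.G1 D.FG _ hs
  rw [pt_back D.GF a ha] at h
  exact h

lemma fibre2 (hS : S_SING) (hC : S_CURVE2) (D : Dat2 f g k l F G) (bg : Big g) (a : Fin 3 → ℂ)
    (ha : MvPolynomial.eval a (surf f k) = 0) (hfa : f.eval (a 0) ≠ 0) :
    MvPolynomial.eval a (F 0) = (base F).eval (a 0) := by
  set c := a 0 with hc
  have hk0 : k ≠ 0 := by have := D.hk; omega
  set v : Fin 3 → ℂ[X] := ![C c, X, C (f.eval c)⁻¹ * X ^ k] with hv
  have hv0 : sub v (surf f k) = 0 := by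
    rw [sub_surf]
    simp only [hv, Matrix.cons_val_zero, Matrix.cons_val_one, Matrix.cons_val, comp_C]
    rw [← mul_assoc, ← C_mul, mul_inv_cancel₀ hfa, C_1, one_mul, sub_self]
  have hpt : ∀ t : ℂ, (fun i => (v i).eval t) = ![c, t, (f.eval c)⁻¹ * t ^ k] := by
    intro t
    funext i
    fin_cases i <;> simp [hv]
  have hmem : ∀ t : ℂ, MvPolynomial.eval ![c, t, (f.eval c)⁻¹ * t ^ k] (surf f k) = 0 := by
    intro t
    have h := congrArg (Polynomial.eval t) hv0
    rwa [eval_sub', hpt, Polynomial.eval_zero] at h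
  obtain ⟨h, hh⟩ := D.F1
  have h1 : g.comp (sub v (F 0)) * sub v (F 2) = sub v (F 1) ^ l := by
    have h2 := congrArg (sub v) hh
    rw [sub_aeval, sub_surf, sub_mul, hv0, mul_zero] at h2
    exact sub_eq_zero.mp h2
  have hns : ∀ t : ℂ, ¬ (g.eval ((sub v (F 0)).eval t) = 0 ∧ (sub v (F 1)).eval t = 0 ∧
      g.derivative.eval ((sub v (F 0)).eval t) * (sub v (F 2)).eval t = 0) := by
    intro t ht
    rw [eval_sub', eval_sub', eval_sub', hpt] at ht
    have hs : IsSingularPt (surf g l)
        (fun i => MvPolynomial.eval ![c, t, (f.eval c)⁻¹ * t ^ k] (F i)) := by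
      rw [hS g l D.hl]
      exact ht
    have h3 := nonsing2 D _ (hmem t) hs
    rw [hS f k D.hk] at h3
    exact hfa h3.1
  obtain ⟨e, he⟩ := hC g bg l D.hl _ _ _ h1 hns
  have e1 := congrArg (Polynomial.eval (a 1)) he
  have e0 := congrArg (Polynomial.eval 0) he
  rw [eval_sub', hpt, eval_C] at e1 e0
  have ha' : ![c, a 1, (f.eval c)⁻¹ * a 1 ^ k] = a := by
    rw [eval_surf] at ha
    have h4 : a 1 ^ k = f.eval c * a 2 := by rw [hc]; linear_combination -ha
    funext i
    fin_cases i
    · simp [hc]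
    · simp
    · simp only [Fin.reduceFinMk, Matrix.cons_val]
      rw [h4, ← mul_assoc, inv_mul_cancel₀ hfa, one_mul]
  have h0' : ![c, 0, (f.eval c)⁻¹ * 0 ^ k] = spt c := by
    funext i
    fin_cases i <;> simp [spt, hk0]
  rw [ha'] at e1
  rw [h0'] at e0
  rw [e1, base_eval, e0]

lemma spt_mem2 (D : Dat2 f g k l F G) (c : ℂ) : MvPolynomial.eval (spt c) (surf f k) = 0 := by
  have hk0 : k ≠ 0 := by have := D.hk; omega
  rw [eval_surf]
  simp [spt, hk0]

lemma sing_spt2 (hS : S_SING) (D : Dat2 f g k l F G) (c : ℂ) (hc : f.eval c = 0) :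
    IsSingularPt (surf f k) (spt c) := by
  rw [hS f k D.hk]
  simp [spt, hc]

lemma push_spt2 (hS : S_SING) (D : Dat2 f g k l F G) (c : ℂ) (hc : f.eval c = 0) :
    g.eval ((base F).eval c) = 0 := by
  have h := sing_push D.F1 D.GF _ (sing_spt2 hS D c hc)
  rw [hS g l D.hl] at h
  rw [base_eval]
  exact h.1

/-- the first coordinate of the map at singular points -/
lemma xcoord (hS : S_SING) (D : Dat2 f g k l F G) (s : Fin 3 → ℂ)
    (hs : IsSingularPt (surf f k) s) :
    MvPolynomial.eval s (F 0) = (base F).eval (s 0) := by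
  have hs' := (hS f k D.hk s).mp hs
  obtain ⟨h0, h1, h2⟩ := hs'
  by_cases hd : f.derivative.eval (s 0) = 0
  · set w : ℂ[X] := sub ![C (s 0), 0, X] (F 0) with hw
    have hz : ∀ z : ℂ, w.eval z = MvPolynomial.eval ![s 0, 0, z] (F 0) := by
      intro z
      rw [hw, eval_sub']
      congr 2
      funext i
      fin_cases i <;> simp
    have hcomp : g.comp w = 0 := by
      apply Polynomial.funext
      intro z
      rw [Polynomial.eval_comp, hz, Polynomial.eval_zero]
      have hsz : IsSingularPt (surf f k) ![s 0, 0, z] := by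
        rw [hS f k D.hk]
        simp [h0, hd]
      have h3 := sing_push D.F1 D.GF _ hsz
      rw [hS g l D.hl] at h3
      exact h3.1
    rw [Polynomial.comp_eq_zero_iff] at hcomp
    rcases hcomp with h | ⟨-, h⟩
    · exact absurd h D.hg
    · have e1 : w.eval (s 2) = w.eval 0 := by rw [h]; simp
      rw [hz, hz] at e1
      have es : ![s 0, 0, s 2] = s := by
        funext i
        fin_cases i <;> simp [h1]
      rw [es] at e1
      rw [e1, base_eval]
      rfl
  · have h3 : s 2 = 0 := by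
      rcases mul_eq_zero.mp h2 with h | h
      · exact absurd h hd
      · exact h
    have es : spt (s 0) = s := by
      funext i
      fin_cases i <;> simp [spt, h1, h3]
    rw [base_eval, es]

lemma inv_root (hS : S_SING) (D : Dat2 f g k l F G) (c : ℂ) (hc : f.eval c = 0) :
    (base G).eval ((base F).eval c) = c := by
  have h := sing_push D.F1 D.GF _ (sing_spt2 hS D c hc)
  have h1 := xcoord hS D.symm _ h
  rw [base_eval F c, ← h1]
  have h5 := congrFun (pt_back D.GF _ (spt_mem2 D c)) 0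
  rw [h5]
  simp [spt]

lemma comp_ne2 (hS : S_SING) (D : Dat2 f g k l F G) (bg : Big g) : g.comp (base F) ≠ 0 := by
  intro h
  rw [Polynomial.comp_eq_zero_iff] at h
  rcases h with h | ⟨h0, h⟩
  · exact D.hg h
  set b := (base F).coeff 0 with hb
  have hconst : ∀ x, (base F).eval x = b := by intro x; rw [h]; simp
  -- a point off the zeros of `f`
  obtain ⟨c0, hc0⟩ : ∃ c0, f.eval c0 ≠ 0 := by
    by_contra hcon
    push Not at hcon
    exact D.hf (Polynomial.funext fun x => by rw [hcon x, Polynomial.eval_zero])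
  have hmem := mem_push2 D _ (spt_mem2 D c0)
  have hx : MvPolynomial.eval (spt c0) (F 0) = b := by rw [← base_eval, hconst]
  have hy : MvPolynomial.eval (spt c0) (F 1) = 0 := by
    rw [eval_surf] at hmem
    simp only [hx, h0, zero_mul, zero_sub, neg_eq_zero] at hmem
    exact pow_eq_zero_iff (by have := D.hl; omega) |>.mp hmem
  by_cases hd : g.derivative.eval b = 0
  · have hs : IsSingularPt (surf g l) (fun i => MvPolynomial.eval (spt c0) (F i)) := by
      rw [hS g l D.hl]
      refine ⟨by simp only [hx]; exact h0, hy, ?_⟩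
      simp only [hx, hd, zero_mul]
    have h3 := nonsing2 D _ (spt_mem2 D c0) hs
    rw [hS f k D.hk] at h3
    exact hc0 (by simpa [spt] using h3.1)
  · obtain ⟨b', hb', hne⟩ : ∃ b', g.eval b' = 0 ∧ b' ≠ b := by
      obtain ⟨-, c, hc, h1 | ⟨c', hne, hc'⟩⟩ := bg
      · exact ⟨c, hc, fun e => hd (by rw [← e]; exact h1)⟩
      · by_cases e : c = b
        · exact ⟨c', hc', fun e' => hne (e'.trans e.symm)⟩
        · exact ⟨c, hc, e⟩
    have h4 := inv_root hS D.symm b' hb'
    rw [hconst] at h4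
    exact hne h4.symm

lemma base_comp2 (hS : S_SING) (hC : S_CURVE2) (D : Dat2 f g k l F G) (bf : Big f) (bg : Big g) :
    (base G).comp (base F) = X := by
  have key : ((base G).comp (base F) - X) * (f * g.comp (base F)) = 0 := by
    apply Polynomial.funext
    intro c
    rw [Polynomial.eval_mul, Polynomial.eval_mul, Polynomial.eval_sub, Polynomial.eval_comp,
      Polynomial.eval_X, Polynomial.eval_comp, Polynomial.eval_zero]
    by_cases h1 : f.eval c = 0
    · rw [h1]; ring
    by_cases h2 : g.eval ((base F).eval c) = 0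
    · rw [h2]; ring
    have h3 : (base F).eval c = MvPolynomial.eval (spt c) (F 0) := base_eval F c
    have h4 := fibre2 hS hC D.symm bf (fun i => MvPolynomial.eval (spt c) (F i))
      (mem_push2 D _ (spt_mem2 D c)) (by rw [h3] at h2; exact h2)
    rw [← h3] at h4
    rw [← h4]
    have h5 := congrFun (pt_back D.GF _ (spt_mem2 D c)) 0
    rw [h5]
    simp [spt]
  rcases mul_eq_zero.mp key with h | h
  · exact sub_eq_zero.mp h
  · rcases mul_eq_zero.mp h with h | h
    · exact absurd h D.hf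
    · exact absurd h (comp_ne2 hS D bg)

/-- the first coordinate of the map is the polynomial `base F` of `x_0` modulo the equation -/
lemma base_mem2 (hS : S_SING) (hC : S_CURVE2) (D : Dat2 f g k l F G) (bg : Big g) :
    ∃ r, F 0 = Polynomial.aeval (MvPolynomial.X 0 : Poly3) (base F) + r * surf f k := by
  have hirr := irreducible_surf D.hf k
  have hprime : Prime (surf f k) := hirr.prime
  set d : Poly3 := (F 0 - Polynomial.aeval (MvPolynomial.X 0 : Poly3) (base F)) *
    Polynomial.aeval (MvPolynomial.X 0 : Poly3) f with hd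
  have h1 : d ∈ MvPolynomial.vanishingIdeal ℂ
      (MvPolynomial.zeroLocus ℂ (Ideal.span {surf f k})) := by
    rw [MvPolynomial.mem_vanishingIdeal_iff]
    intro a ha
    rw [MvPolynomial.mem_zeroLocus_iff] at ha
    have ha0 := ha _ (Ideal.mem_span_singleton_self _)
    rw [MvPolynomial.aeval_eq_eval] at ha0
    rw [MvPolynomial.aeval_eq_eval, hd]
    simp only [map_mul, map_sub, eval_aeval_X0] at ha0 ⊢
    by_cases h2 : f.eval (a 0) = 0
    · rw [h2, mul_zero]
    · rw [fibre2 hS hC D bg a (by simpa using ha0) h2, sub_self, zero_mul]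
  rw [MvPolynomial.vanishingIdeal_zeroLocus_eq_radical,
    Ideal.IsPrime.radical ((Ideal.span_singleton_prime hprime.ne_zero).mpr hprime),
    Ideal.mem_span_singleton] at h1
  rcases hprime.dvd_or_dvd h1 with ⟨r, hr⟩ | ⟨r, hr⟩
  · exact ⟨r, by linear_combination hr⟩
  · exfalso
    apply D.hf
    apply Polynomial.funext
    intro c
    have := congrArg (MvPolynomial.eval (spt c)) hr
    rw [eval_aeval_X0, map_mul, spt_mem2 D c, zero_mul] at this
    simpa [spt] using this

/-- the affine form of the first coordinate -/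
lemma affine (hS : S_SING) (hC : S_CURVE2) (hD : S_DVD2) (D : Dat2 f g k l F G) (bf : Big f)
    (bg : Big g) : ∃ (a b : ℂ) (r : Poly3), a ≠ 0 ∧ base F = C a * X + C b ∧
      ∀ c : ℂ, F 0 - MvPolynomial.C ((base F).eval c) =
        MvPolynomial.C a * (MvPolynomial.X 0 - MvPolynomial.C c) + r * surf f k := by
  obtain ⟨r, hr⟩ := base_mem2 hS hC D bg
  obtain ⟨a, b, ha, hab⟩ := (hD f g (base F) (base G) D.hf D.hg (base_comp2 hS hC D bf bg)
    (fun c hc => push_spt2 hS D c hc) (fun c hc => push_spt2 hS D.symm c hc)).1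
  refine ⟨a, b, r, ha, hab, fun c => ?_⟩
  rw [hr, hab]
  simp only [map_add, map_mul, Polynomial.aeval_C, Polynomial.aeval_X, Polynomial.eval_add,
    Polynomial.eval_mul, Polynomial.eval_C, Polynomial.eval_X, MvPolynomial.algebraMap_eq]
  ring

/-- the exponents -/
lemma expo2 (hS : S_SING) (hC : S_CURVE2) (hD : S_DVD2) (hNil : S_NIL) (D : Dat2 f g k l F G)
    (bf : Big f) (bg : Big g) : k ≤ l := by
  obtain ⟨c, hc⟩ : ∃ c, f.eval c = 0 := by obtain ⟨-, c, hc, -⟩ := bf; exact ⟨c, hc⟩
  set b := (base F).eval c with hb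
  have hgb : g.eval b = 0 := push_spt2 hS D c hc
  have hbc : (base G).eval b = c := inv_root hS D c hc
  have map1 : ∀ r ∈ Ideal.span {MvPolynomial.X 0 - MvPolynomial.C b, surf g l},
      MvPolynomial.aeval F r ∈ Ideal.span {MvPolynomial.X 0 - MvPolynomial.C c, surf f k} := by
    obtain ⟨a, b0, r, -, -, h⟩ := affine hS hC hD D bf bg
    obtain ⟨h1, hh1⟩ := D.F1
    have : Ideal.span {MvPolynomial.X 0 - MvPolynomial.C b, surf g l} ≤
        (Ideal.span {MvPolynomial.X 0 - MvPolynomial.C c, surf f k}).comap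
          (MvPolynomial.aeval F : Poly3 →ₐ[ℂ] Poly3) := by
      rw [Ideal.span_le]
      rintro x (rfl | rfl)
      · rw [SetLike.mem_coe, Ideal.mem_comap, map_sub, MvPolynomial.aeval_X,
          MvPolynomial.aeval_C, MvPolynomial.algebraMap_eq, h c]
        exact Ideal.add_mem _ (Ideal.mul_mem_left _ _ (Ideal.subset_span (by simp)))
          (Ideal.mul_mem_left _ _ (Ideal.subset_span (by simp)))
      · rw [SetLike.mem_coe, Ideal.mem_comap, hh1]
        exact Ideal.mul_mem_left _ _ (Ideal.subset_span (by simp))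
    exact fun r hr => this hr
  have map2 : ∀ r ∈ Ideal.span {MvPolynomial.X 0 - MvPolynomial.C c, surf f k},
      MvPolynomial.aeval G r ∈ Ideal.span {MvPolynomial.X 0 - MvPolynomial.C b, surf g l} := by
    obtain ⟨a, b0, r, -, -, h⟩ := affine hS hC hD D.symm bg bf
    obtain ⟨h1, hh1⟩ := D.G1
    have : Ideal.span {MvPolynomial.X 0 - MvPolynomial.C c, surf f k} ≤
        (Ideal.span {MvPolynomial.X 0 - MvPolynomial.C b, surf g l}).comap
          (MvPolynomial.aeval G : Poly3 →ₐ[ℂ] Poly3) := by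
      rw [Ideal.span_le]
      rintro x (rfl | rfl)
      · have h2 := h b
        rw [hbc] at h2
        rw [SetLike.mem_coe, Ideal.mem_comap, map_sub, MvPolynomial.aeval_X,
          MvPolynomial.aeval_C, MvPolynomial.algebraMap_eq, h2]
        exact Ideal.add_mem _ (Ideal.mul_mem_left _ _ (Ideal.subset_span (by simp)))
          (Ideal.mul_mem_left _ _ (Ideal.subset_span (by simp)))
      · rw [SetLike.mem_coe, Ideal.mem_comap, hh1]
        exact Ideal.mul_mem_left _ _ (Ideal.subset_span (by simp))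
    exact fun r hr => this hr
  obtain ⟨-, hX, hmin⟩ := hNil f k (by have := D.hk; omega) c hc
  obtain ⟨hnil, -, -⟩ := hNil g l (by have := D.hl; omega) b hgb
  have h1 := map2 _ hX
  rw [map_pow] at h1
  have h2 := map1 _ (hnil _ _ h1)
  rw [map_pow, MvPolynomial.aeval_X] at h2
  obtain ⟨h3, hh3⟩ := D.GF 1
  rw [hh3] at h2
  apply hmin
  have h4 : (MvPolynomial.X 1 + h3 * surf f k) - MvPolynomial.X 1 ∈
      Ideal.span {MvPolynomial.X 0 - MvPolynomial.C c, surf f k} := by
    rw [add_sub_cancel_left]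
    exact Ideal.mul_mem_left _ _ (Ideal.subset_span (by simp))
  have h5 := Ideal.mem_of_dvd _ (sub_dvd_pow_sub_pow (MvPolynomial.X 1 + h3 * surf f k)
    (MvPolynomial.X 1) l) h4
  have h6 := Ideal.sub_mem _ h2 h5
  rwa [sub_sub_cancel] at h6

/-- the multiplicities -/
lemma mult2 (hS : S_SING) (hC : S_CURVE2) (hD : S_DVD2) (hJ : S_JAC) (hM : S_MULT)
    (D : Dat2 f g k l F G) (bf : Big f) (bg : Big g) (c : ℂ) (hc : f.eval c = 0) :
    f.rootMultiplicity c ≤ g.rootMultiplicity ((base F).eval c) := by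
  set b := (base F).eval c with hb
  have hgb : g.eval b = 0 := push_spt2 hS D c hc
  have hl0 : l ≠ 0 := by have := D.hl; omega
  have hk0 : k ≠ 0 := by have := D.hk; omega
  have hpos : 0 < g.rootMultiplicity b := (Polynomial.rootMultiplicity_pos D.hg).mpr hgb
  set j := g.rootMultiplicity b - 1 with hj
  obtain ⟨h', h1, h2⟩ := (hM g D.hg l D.hl b hgb).2
  obtain ⟨a, b0, r, ha, -, haff⟩ := affine hS hC hD D bf bg
  have haff' := haff c
  rw [← hb] at haff'
  have h3 := hJ (surf f k) (surf g l) F G D.F1 D.GF _ h1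
  rw [map_mul, map_pow, map_sub, MvPolynomial.aeval_X, MvPolynomial.aeval_C,
    MvPolynomial.algebraMap_eq, haff'] at h3
  have hsurf : surf f k ∈ Jac (surf f k) := Ideal.subset_span (by simp)
  have h4 : MvPolynomial.aeval F h' * MvPolynomial.C (a ^ j) *
      (MvPolynomial.X 0 - MvPolynomial.C c) ^ j ∈ Jac (surf f k) := by
    have h5 := Ideal.mem_of_dvd _ (sub_dvd_pow_sub_pow
      (MvPolynomial.C a * (MvPolynomial.X 0 - MvPolynomial.C c) + r * surf f k)
      (MvPolynomial.C a * (MvPolynomial.X 0 - MvPolynomial.C c)) j)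
      (show _ ∈ Jac (surf f k) by
        rw [add_sub_cancel_left]; exact Ideal.mul_mem_left _ _ hsurf)
    have h6 := Ideal.sub_mem _ h3 (Ideal.mul_mem_left _ (MvPolynomial.aeval F h') h5)
    rw [← mul_sub, sub_sub_cancel, mul_pow, ← MvPolynomial.C_pow] at h6
    rwa [mul_assoc]
  -- the line over `c`
  have hmem : ∀ z : ℂ, MvPolynomial.eval ![c, 0, z] (surf f k) = 0 := by
    intro z
    rw [eval_surf]
    simp [hc, hk0]
  have himg : ∀ z : ℂ, (fun i => MvPolynomial.eval ![c, 0, z] (F i)) =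
      ![b, 0, MvPolynomial.eval ![c, 0, z] (F 2)] := by
    intro z
    have hx : MvPolynomial.eval ![c, 0, z] (F 0) = b := by
      have h7 := congrArg (MvPolynomial.eval ![c, 0, z]) haff'
      rw [map_sub, MvPolynomial.eval_C, map_add, map_mul, map_mul, hmem z] at h7
      simp only [map_sub, MvPolynomial.eval_X, MvPolynomial.eval_C, Matrix.cons_val_zero, sub_self,
        mul_zero, add_zero] at h7
      exact sub_eq_zero.mp h7
    have hy := mem_push2 D _ (hmem z)
    rw [eval_surf] at hy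
    simp only [hx, hgb, zero_mul, zero_sub, neg_eq_zero] at hy
    have hy' := pow_eq_zero_iff hl0 |>.mp hy
    funext i
    fin_cases i
    · simpa using hx
    · simpa using hy'
    · simp
  obtain ⟨z, hz⟩ : ∃ z : ℂ, MvPolynomial.eval ![c, 0, z] (F 2) ≠ 0 := by
    by_contra hcon
    push Not at hcon
    have e0 := pt_back D.GF _ (hmem 0)
    have e1 := pt_back D.GF _ (hmem 1)
    rw [himg, hcon] at e0 e1
    have := congrFun (e0.symm.trans e1) 2
    simp at this
  have h8 := (hM f D.hf k D.hk c hc).1 _ j z h4 ?_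
  · omega
  · rw [map_mul, MvPolynomial.eval_C,
      Pool.Agent.Results.MP_c4712b_ag.ManyNodesFamily.eval_aeval, himg]
    exact mul_ne_zero (h2 _ hz) (pow_ne_zero _ ha)

end

/-- isomorphic surfaces, general case -/
theorem only_if2 (hS : S_SING) (hC : S_CURVE2) (hD : S_DVD2) (hJ : S_JAC) (hM : S_MULT)
    (hNil : S_NIL) (f g : ℂ[X]) (k l : ℕ) (bf : Big f) (bg : Big g) (hk : 2 ≤ k) (hl : 2 ≤ l)
    (Ψ : CoordRing (surf f k) ≃ₐ[ℂ] CoordRing (surf g l)) :
    k = l ∧ ∃ a b c : ℂ, a ≠ 0 ∧ c ≠ 0 ∧ g = C c * f.comp (C a * X + C b) := by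
  obtain ⟨F, G, hF, hG, hGF, hFG⟩ := iso_data Ψ
  have D : Dat2 f g k l F G := ⟨bf.1, bg.1, hk, hl, hF, hG, hGF, hFG⟩
  refine ⟨le_antisymm (expo2 hS hC hD hNil D bf bg) (expo2 hS hC hD hNil D.symm bg bf), ?_⟩
  refine (hD f g (base F) (base G) D.hf D.hg (base_comp2 hS hC D bf bg)
    (fun c hc => push_spt2 hS D c hc) (fun c hc => push_spt2 hS D.symm c hc)).2 ?_
  intro c hc
  apply le_antisymm (mult2 hS hC hD hJ hM D bf bg c hc)
  have h := mult2 hS hC hD hJ hM D.symm bg bf _ (push_spt2 hS D c hc)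
  rwa [inv_root hS D c hc] at h

end

end Pool.Agent.Y166.CS
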