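import Pool.Agent.Y166.CS.Geo
import Pool.Agent.Y166.CS.Stm2

set_option autoImplicit false

namespace Pool.Agent.Y166.CS

open Polynomial
open Pool.Agent.Results.MP_c4712b_ag.ManyNodesFamily (Poly3 surf CoordRing IsSingularPt spt
  IsIsolatedSingularPt IsQuasihomogeneous iso_of_aut irreducible_surf contractible_surf sing_ncard
  isolated_surf)

lemma unique_root {f : ℂ[X]} (hd : 1 ≤ f.natDegree) {c : ℂ} (hc : ∀ y, f.eval y = 0 → y = c) :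
    f = C f.leadingCoeff * (X - C c) ^ f.natDegree := by
  have hf0 : f ≠ 0 := by
    rintro rfl
    simp at hd
  have hs := IsAlgClosed.splits f
  have hr : f.roots = Multiset.replicate f.natDegree c := by
    rw [Multiset.eq_replicate]
    refine ⟨Polynomial.splits_iff_card_roots.mp hs, fun y hy => ?_⟩
    rw [Polynomial.mem_roots hf0] at hy
    exact hc y hy
  conv_lhs => rw [hs.eq_prod_roots, hr]
  simp

/-- the dichotomy for one surface -/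
theorem dichotomy (hI : S_ISOL) (hN : S_CONN) (hO : S_ONE) (f : ℂ[X]) (hd : 1 ≤ f.natDegree)
    (k : ℕ) (hk : 2 ≤ k) :
    Irreducible (surf f k) ∧
    ContractibleSpace {x : Fin 3 → ℂ // MvPolynomial.eval x (surf f k) = 0} ∧
    (∀ a : Fin 3 → ℂ, IsIsolatedSingularPt (surf f k) a ↔
      ∃ c : ℂ, f.eval c = 0 ∧ f.derivative.eval c ≠ 0 ∧ a = ![c, 0, 0]) ∧
    ((∃ q : Poly3, IsQuasihomogeneous q ∧
      Nonempty (CoordRing (surf f k) ≃ₐ[ℂ] CoordRing q)) ↔ ∃! c : ℂ, f.eval c = 0) ∧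
    ((∃ Φ : Poly3 ≃ₐ[ℂ] Poly3, IsQuasihomogeneous (Φ (surf f k))) ↔
      ∃! c : ℂ, f.eval c = 0) := by
  have hf0 : f ≠ 0 := by
    rintro rfl
    simp at hd
  have h1 : (∃! c : ℂ, f.eval c = 0) →
      ∃ Φ : Poly3 ≃ₐ[ℂ] Poly3, IsQuasihomogeneous (Φ (surf f k)) := by
    rintro ⟨c, -, hu⟩
    have h := hO c f.leadingCoeff f.natDegree k (Polynomial.leadingCoeff_ne_zero.mpr hf0) hk
    rwa [← unique_root hd hu] at h
  have h2 : (∃ Φ : Poly3 ≃ₐ[ℂ] Poly3, IsQuasihomogeneous (Φ (surf f k))) →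
      ∃ q : Poly3, IsQuasihomogeneous q ∧
        Nonempty (CoordRing (surf f k) ≃ₐ[ℂ] CoordRing q) := by
    rintro ⟨Φ, hΦ⟩
    exact ⟨_, hΦ, iso_of_aut _ Φ⟩
  have h3 : (∃ q : Poly3, IsQuasihomogeneous q ∧
      Nonempty (CoordRing (surf f k) ≃ₐ[ℂ] CoordRing q)) → ∃! c : ℂ, f.eval c = 0 := by
    rintro ⟨q, hq, ⟨e⟩⟩
    obtain ⟨c, hc⟩ := IsAlgClosed.exists_root f (by
      rw [Polynomial.degree_eq_natDegree hf0]
      exact_mod_cast (by omega : f.natDegree ≠ 0))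
    refine ⟨c, hc, fun y hy => ?_⟩
    by_contra hne
    exact (hN f hf0 k hk y c hne hy hc q hq).false e
  exact ⟨irreducible_surf hf0 k, contractible_surf f (by omega), fun a => hI f hf0 k hk a,
    ⟨h3, fun h => h2 (h1 h)⟩, ⟨fun h => h3 (h2 h), h1⟩⟩

/-- the classification -/
theorem classification (hC : S_CURVE) (hO : S_ORD) (hD : S_DVD) (hA : S_IF) (f g : ℂ[X])
    (hf : Squarefree f) (hg : Squarefree g) (df : 2 ≤ f.natDegree) (dg : 2 ≤ g.natDegree)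
    (k l : ℕ) (hk : 2 ≤ k) (hl : 2 ≤ l) :
    (Nonempty (CoordRing (surf f k) ≃ₐ[ℂ] CoordRing (surf g l)) ↔
      k = l ∧ ∃ a b c : ℂ, a ≠ 0 ∧ c ≠ 0 ∧ g = C c * f.comp (C a * X + C b)) ∧
    ((∃ Φ : Poly3 ≃ₐ[ℂ] Poly3, Φ (surf f k) = surf g l) ↔
      k = l ∧ ∃ a b c : ℂ, a ≠ 0 ∧ c ≠ 0 ∧ g = C c * f.comp (C a * X + C b)) := by
  have h1 : (k = l ∧ ∃ a b c : ℂ, a ≠ 0 ∧ c ≠ 0 ∧ g = C c * f.comp (C a * X + C b)) →
      ∃ Φ : Poly3 ≃ₐ[ℂ] Poly3, Φ (surf f k) = surf g l := by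
    rintro ⟨rfl, a, b, c, ha, hc, rfl⟩
    obtain ⟨Φ, hΦ⟩ := hA f k a b c ha hc
    exact ⟨Φ, hΦ⟩
  have h2 : (∃ Φ : Poly3 ≃ₐ[ℂ] Poly3, Φ (surf f k) = surf g l) →
      Nonempty (CoordRing (surf f k) ≃ₐ[ℂ] CoordRing (surf g l)) := by
    rintro ⟨Φ, hΦ⟩
    rw [← hΦ]
    exact iso_of_aut _ Φ
  have h3 : Nonempty (CoordRing (surf f k) ≃ₐ[ℂ] CoordRing (surf g l)) →
      (k = l ∧ ∃ a b c : ℂ, a ≠ 0 ∧ c ≠ 0 ∧ g = C c * f.comp (C a * X + C b)) := by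
    rintro ⟨e⟩
    exact only_if hC hO hD f g k l hf hg df dg hk hl e
  exact ⟨⟨h3, fun h => h2 (h1 h)⟩, ⟨fun h => h3 (h2 h), h1⟩⟩

/-- uncountably many pairwise non-isomorphic surfaces -/
theorem uncountable (hC : S_CURVE) (hO : S_ORD) (hD : S_DVD) (hA : S_IF) (hU : S_UNC) (s k : ℕ)
    (hs : 3 ≤ s) (hk : 2 ≤ k) :
    ∃ S : Set ℂ[X], ¬ S.Countable ∧
      (∀ f ∈ S, Squarefree f ∧ f.natDegree = s ∧
        {a | IsSingularPt (surf f k) a}.ncard = s ∧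
        ∀ a, IsSingularPt (surf f k) a → IsIsolatedSingularPt (surf f k) a) ∧
      ∀ f ∈ S, ∀ g ∈ S, f ≠ g → IsEmpty (CoordRing (surf f k) ≃ₐ[ℂ] CoordRing (surf g k)) := by
  obtain ⟨S, hS, h1, h2⟩ := hU s hs
  refine ⟨S, hS, fun f hf => ?_, fun f hf g hg hne => ⟨fun e => hne (h2 f hf g hg ?_)⟩⟩
  · obtain ⟨hsq, hdeg⟩ := h1 f hf
    exact ⟨hsq, hdeg, by rw [sing_ncard hsq hk, hdeg], isolated_surf hsq hk⟩
  · exact ((classification hC hO hD hA f g (h1 f hf).1 (h1 g hg).1 (by rw [(h1 f hf).2]; omega)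
      (by rw [(h1 g hg).2]; omega) k k hk hk).1.mp ⟨e⟩).2

end Pool.Agent.Y166.CS
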