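import Pool.Agent.Y166.CS.Main
import Pool.Agent.Y166.CS.Geo2

set_option autoImplicit false

namespace Pool.Agent.Y166.CS

open Polynomial
open Pool.Agent.Results.MP_c4712b_ag.ManyNodesFamily (Poly3 surf CoordRing IsSingularPt spt
  IsIsolatedSingularPt IsQuasihomogeneous iso_of_aut iso_data sing_push pt_back sing_ncard
  isolated_surf)

lemma big_of_degree {f : ℂ[X]} (hd : 2 ≤ f.natDegree) : Big f := by
  have hf0 : f ≠ 0 := by
    rintro rfl
    simp at hd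
  refine ⟨hf0, ?_⟩
  by_cases hsq : Squarefree f
  · obtain ⟨c, c', hne, hc, hc'⟩ := two_roots hsq hd
    exact ⟨c, hc, Or.inr ⟨c', fun e => hne e.symm, hc'⟩⟩
  · unfold Squarefree at hsq
    push Not at hsq
    obtain ⟨r, ⟨u, hu⟩, hr⟩ := hsq
    have hr0 : r ≠ 0 := by
      rintro rfl
      simp at hu
      exact hf0 hu
    obtain ⟨c, hc⟩ := IsAlgClosed.exists_root r (by
      intro h
      exact hr (Polynomial.isUnit_iff_degree_eq_zero.mpr h))
    have hc' : r.eval c = 0 := hc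
    refine ⟨c, by rw [hu]; simp [hc'], Or.inl ?_⟩
    rw [hu]
    simp [Polynomial.derivative_mul, hc']

/-- a surface with one singular point is not isomorphic to one with `g` big -/
lemma no_iso_linear (hS : S_SING) {f g : ℂ[X]} (hd : f.natDegree = 1) (bg : Big g) {k l : ℕ}
    (hk : 2 ≤ k) (hl : 2 ≤ l) (Ψ : CoordRing (surf f k) ≃ₐ[ℂ] CoordRing (surf g l)) : False := by
  obtain ⟨F, G, hF, hG, hGF, hFG⟩ := iso_data Ψ
  obtain ⟨u, v, hu, rfl⟩ : ∃ u v : ℂ, u ≠ 0 ∧ f = C u * X + C v := by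
    obtain ⟨u, hu, v, h⟩ := Polynomial.natDegree_eq_one.mp hd
    exact ⟨u, v, hu, h.symm⟩
  -- all singular points of the first surface agree
  have huniq : ∀ s s' : Fin 3 → ℂ, IsSingularPt (surf (C u * X + C v) k) s →
      IsSingularPt (surf (C u * X + C v) k) s' → s = s' := by
    intro s s' hs hs'
    rw [hS _ k hk] at hs hs'
    simp only [eval_add, eval_mul, eval_C, eval_X, derivative_add, derivative_mul, derivative_C,
      zero_mul, derivative_X, mul_one, zero_add, add_zero] at hs hs'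
    obtain ⟨h0, h1, h2⟩ := hs
    obtain ⟨h0', h1', h2'⟩ := hs'
    have e0 : s 0 = s' 0 := mul_left_cancel₀ hu (by linear_combination h0 - h0')
    have e2 : s 2 = 0 := (mul_eq_zero.mp h2).resolve_left hu
    have e2' : s' 2 = 0 := (mul_eq_zero.mp h2').resolve_left hu
    funext i
    fin_cases i
    · exact e0
    · exact h1.trans h1'.symm
    · exact e2.trans e2'.symm
  obtain ⟨s, s', hne, hs, hs'⟩ : ∃ s s' : Fin 3 → ℂ, s ≠ s' ∧ IsSingularPt (surf g l) s ∧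
      IsSingularPt (surf g l) s' := by
    obtain ⟨-, c, hc, h1 | ⟨c', hne, hc'⟩⟩ := bg
    · refine ⟨![c, 0, 0], ![c, 0, 1], ?_, ?_, ?_⟩
      · intro e
        have := congrFun e 2
        simp at this
      · rw [hS g l hl]; simp [hc]
      · rw [hS g l hl]; simp [hc, h1]
    · refine ⟨![c, 0, 0], ![c', 0, 0], ?_, ?_, ?_⟩
      · intro e
        have := congrFun e 0
        simp at this
        exact hne this.symm
      · rw [hS g l hl]; simp [hc]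
      · rw [hS g l hl]; simp [hc']
  have e := huniq _ _ (sing_push hG hFG s hs) (sing_push hG hFG s' hs')
  have p1 := pt_back hFG s hs.1
  have p2 := pt_back hFG s' hs'.1
  rw [e] at p1
  exact hne (p1.symm.trans p2)

/-- isomorphic surfaces -/
theorem only_if3 (hS : S_SING) (hC : S_CURVE2) (hD : S_DVD2) (hJ : S_JAC) (hM : S_MULT)
    (hNil : S_NIL) (hL : S_LIN) (f g : ℂ[X]) (k l : ℕ) (df : 1 ≤ f.natDegree)
    (dg : 1 ≤ g.natDegree) (hk : 2 ≤ k) (hl : 2 ≤ l)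
    (Ψ : CoordRing (surf f k) ≃ₐ[ℂ] CoordRing (surf g l)) :
    k = l ∧ ∃ a b c : ℂ, a ≠ 0 ∧ c ≠ 0 ∧ g = C c * f.comp (C a * X + C b) := by
  rcases Nat.eq_or_lt_of_le df with d1 | d1
  · rcases Nat.eq_or_lt_of_le dg with d2 | d2
    · obtain ⟨F, G, hF, hG, hGF, hFG⟩ := iso_data Ψ
      refine ⟨le_antisymm (hL f g d1.symm d2.symm k l hk hl F G hF hG hGF hFG)
        (hL g f d2.symm d1.symm l k hl hk G F hG hF hFG hGF), ?_⟩
      obtain ⟨u, hu, v, h⟩ := Polynomial.natDegree_eq_one.mp d1.symm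
      obtain ⟨u', hu', v', h'⟩ := Polynomial.natDegree_eq_one.mp d2.symm
      refine ⟨u' / u, (v' - v) / u, 1, div_ne_zero hu' hu, one_ne_zero, ?_⟩
      apply Polynomial.funext
      intro x
      rw [← h, ← h']
      simp only [eval_add, eval_mul, eval_C, eval_X, eval_comp]
      field_simp
      ring
    · exact (no_iso_linear hS d1.symm (big_of_degree d2) hk hl Ψ).elim
  · rcases Nat.eq_or_lt_of_le dg with d2 | d2
    · exact (no_iso_linear hS d2.symm (big_of_degree d1) hl hk Ψ.symm).elim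
    · exact only_if2 hS hC hD hJ hM hNil f g k l (big_of_degree d1) (big_of_degree d2) hk hl Ψ

/-- the classification -/
theorem classification2 (hS : S_SING) (hC : S_CURVE2) (hD : S_DVD2) (hJ : S_JAC) (hM : S_MULT)
    (hNil : S_NIL) (hL : S_LIN) (hA : S_IF) (f g : ℂ[X]) (df : 1 ≤ f.natDegree)
    (dg : 1 ≤ g.natDegree) (k l : ℕ) (hk : 2 ≤ k) (hl : 2 ≤ l) :
    (Nonempty (CoordRing (surf f k) ≃ₐ[ℂ] CoordRing (surf g l)) ↔
      k = l ∧ ∃ a b c : ℂ, a ≠ 0 ∧ c ≠ 0 ∧ g = C c * f.comp (C a * X + C b)) ∧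
    ((∃ Φ : Poly3 ≃ₐ[ℂ] Poly3, Φ (surf f k) = surf g l) ↔
      k = l ∧ ∃ a b c : ℂ, a ≠ 0 ∧ c ≠ 0 ∧ g = C c * f.comp (C a * X + C b)) := by
  have h1 : (k = l ∧ ∃ a b c : ℂ, a ≠ 0 ∧ c ≠ 0 ∧ g = C c * f.comp (C a * X + C b)) →
      ∃ Φ : Poly3 ≃ₐ[ℂ] Poly3, Φ (surf f k) = surf g l := by
    rintro ⟨rfl, a, b, c, ha, hc, rfl⟩
    obtain ⟨Φ, hΦ⟩ := hA f k a b c ha hc
    exact ⟨Φ, hΦ⟩
  have h2 : (∃ Φ : Poly3 ≃ₐ[ℂ] Poly3, Φ (surf f k) = surf g l) →
      Nonempty (CoordRing (surf f k) ≃ₐ[ℂ] CoordRing (surf g l)) := by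
    rintro ⟨Φ, hΦ⟩
    rw [← hΦ]
    exact iso_of_aut _ Φ
  have h3 : Nonempty (CoordRing (surf f k) ≃ₐ[ℂ] CoordRing (surf g l)) →
      (k = l ∧ ∃ a b c : ℂ, a ≠ 0 ∧ c ≠ 0 ∧ g = C c * f.comp (C a * X + C b)) := by
    rintro ⟨e⟩
    exact only_if3 hS hC hD hJ hM hNil hL f g k l df dg hk hl e
  exact ⟨⟨h3, fun h => h2 (h1 h)⟩, ⟨fun h => h3 (h2 h), h1⟩⟩

/-- uncountably many pairwise non-isomorphic surfaces -/
theorem uncountable2 (hS : S_SING) (hC : S_CURVE2) (hD : S_DVD2) (hJ : S_JAC) (hM : S_MULT)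
    (hNil : S_NIL) (hL : S_LIN) (hA : S_IF) (hU : S_UNC) (s : ℕ)
    (hs : 3 ≤ s) :
    ∃ S : Set ℂ[X], ¬ S.Countable ∧ ∀ k : ℕ, 2 ≤ k →
      (∀ f ∈ S, Squarefree f ∧ f.natDegree = s ∧
        {a | IsSingularPt (surf f k) a}.ncard = s ∧
        ∀ a, IsSingularPt (surf f k) a → IsIsolatedSingularPt (surf f k) a) ∧
      ∀ f ∈ S, ∀ g ∈ S, ∀ l : ℕ, 2 ≤ l →
        Nonempty (CoordRing (surf f k) ≃ₐ[ℂ] CoordRing (surf g l)) → f = g ∧ k = l := by
  obtain ⟨S, hSc, h1, h2⟩ := hU s hs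
  refine ⟨S, hSc, fun k hk => ⟨fun f hf => ?_, fun f hf g hg l hl e => ?_⟩⟩
  · obtain ⟨hsq, hdeg⟩ := h1 f hf
    exact ⟨hsq, hdeg, by rw [sing_ncard hsq hk, hdeg], isolated_surf hsq hk⟩
  · have h3 := (classification2 hS hC hD hJ hM hNil hL hA f g (by rw [(h1 f hf).2]; omega)
      (by rw [(h1 g hg).2]; omega) k l hk hl).1.mp e
    exact ⟨h2 f hf g hg h3.2, h3.1⟩

end Pool.Agent.Y166.CS
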